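import Pool.Agent.Q239.V.MIN

set_option autoImplicit false

/-!
Project V (helper273), job V-MOB (helper177): the minimal polynomial of the image under a unimodular substitution.
-/

namespace Pool.Agent.Q177.V

open Polynomial Q273.V
open Pool.Agent.Q239.V

noncomputable section

/-- the transform of a polynomial of degree `s` -/
def tr (s : ℕ) (f : ℤ[X]) (p q r t : ℤ) : ℤ[X] :=
  ∑ i ∈ Finset.range (s + 1), C (f.coeff i) * ((C t * X - C q) ^ i * (C p - C r * X) ^ (s - i))

theorem tr_eval {K : Type} [Field K] (s : ℕ) (f : ℤ[X]) (hf : f.natDegree = s) (p q r t : ℤ) (x : K) (hd : p * t - q * r = 1)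
    (hx : (r : K) * x + t ≠ 0) : aeval (((p : K) * x + q) / (r * x + t)) (tr s f p q r t) * ((r : K) * x + t) ^ s = aeval x f := by
  have hd' : (p : K) * t - q * r = 1 := by exact_mod_cast congrArg (Int.cast : ℤ → K) hd
  have hy : ((p : K) * x + q) / (r * x + t) * (r * x + t) = p * x + q := div_mul_cancel₀ _ hx
  have e1 : (t : K) * (((p : K) * x + q) / (r * x + t)) - q = x / (r * x + t) := by
    rw [eq_div_iff hx]
    linear_combination (t : K) * hy + x * hd'
  have e2 : (p : K) - (r : K) * (((p : K) * x + q) / (r * x + t)) = 1 / (r * x + t) := by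
    rw [eq_div_iff hx]
    linear_combination (-(r : K)) * hy + hd'
  rw [aeval_eq_sum_range' (show f.natDegree < s + 1 by omega), tr, map_sum, Finset.sum_mul]
  refine Finset.sum_congr rfl fun i hi => ?_
  rw [Finset.mem_range] at hi
  have e3 : aeval (((p : K) * x + q) / (r * x + t)) (C (f.coeff i) * ((C t * X - C q) ^ i * (C p - C r * X) ^ (s - i))) =
      (f.coeff i : K) * ((x / (r * x + t)) ^ i * (1 / (r * x + t)) ^ (s - i)) := by
    rw [map_mul, map_mul, map_pow, map_pow, map_sub, map_sub, map_mul, map_mul, aeval_X, aeval_C, aeval_C, aeval_C, aeval_C, aeval_C]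
    simp only [algebraMap_int_eq, eq_intCast]
    rw [e1, e2]
  have e4 : ((r : K) * x + t) ^ s = (r * x + t) ^ i * (r * x + t) ^ (s - i) := by
    rw [← pow_add]
    congr 1
    omega
  rw [e3, e4, zsmul_eq_mul, div_pow, div_pow, one_pow]
  have h5 : ((r : K) * x + t) ^ i ≠ 0 := pow_ne_zero _ hx
  have h6 : ((r : K) * x + t) ^ (s - i) ≠ 0 := pow_ne_zero _ hx
  field_simp

theorem lin_deg (a b : ℤ) : (C a * X - C b : ℤ[X]).natDegree ≤ 1 := by
  refine (natDegree_sub_le _ _).trans (max_le ?_ ?_)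
  · exact (natDegree_C_mul_le _ _).trans natDegree_X_le
  · rw [natDegree_C]
    omega

theorem lin_deg' (a b : ℤ) : (C a - C b * X : ℤ[X]).natDegree ≤ 1 := by
  refine (natDegree_sub_le _ _).trans (max_le ?_ ?_)
  · rw [natDegree_C]
    omega
  · exact (natDegree_C_mul_le _ _).trans natDegree_X_le

theorem term_deg (s i : ℕ) (hi : i ≤ s) (p q r t : ℤ) :
    ((C t * X - C q) ^ i * (C p - C r * X) ^ (s - i) : ℤ[X]).natDegree ≤ s := by
  refine natDegree_mul_le.trans ?_
  have h1 := natDegree_pow_le_of_le i (lin_deg t q)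
  have h2 := natDegree_pow_le_of_le (s - i) (lin_deg' p r)
  omega

theorem term_coeff (s i : ℕ) (hi : i ≤ s) (p q r t : ℤ) :
    ((C t * X - C q) ^ i * (C p - C r * X) ^ (s - i) : ℤ[X]).coeff s = t ^ i * (-r) ^ (s - i) := by
  have h1 : ((C t * X - C q) ^ i : ℤ[X]).natDegree ≤ i := by
    have := natDegree_pow_le_of_le i (lin_deg t q)
    omega
  have h2 : ((C p - C r * X) ^ (s - i) : ℤ[X]).natDegree ≤ s - i := by
    have := natDegree_pow_le_of_le (s - i) (lin_deg' p r)
    omega
  have h3 := coeff_mul_add_eq_of_natDegree_le h1 h2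
  rw [show i + (s - i) = s by omega] at h3
  rw [h3]
  have h4 := coeff_pow_of_natDegree_le (m := i) (lin_deg t q)
  have h5 := coeff_pow_of_natDegree_le (m := s - i) (lin_deg' p r)
  rw [mul_one] at h4 h5
  rw [h4, h5]
  have h6 : (C t * X - C q : ℤ[X]).coeff 1 = t := by
    rw [coeff_sub, coeff_C_mul, coeff_X_one, coeff_C_ne_zero one_ne_zero, mul_one, sub_zero]
  have h7 : (C p - C r * X : ℤ[X]).coeff 1 = -r := by
    rw [coeff_sub, coeff_C_mul, coeff_X_one, coeff_C_ne_zero one_ne_zero, mul_one, zero_sub]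
  rw [h6, h7]

theorem tr_deg (s : ℕ) (f : ℤ[X]) (p q r t : ℤ) : (tr s f p q r t).natDegree ≤ s := by
  unfold tr
  refine natDegree_sum_le_of_forall_le _ _ fun i hi => ?_
  rw [Finset.mem_range] at hi
  exact (natDegree_C_mul_le _ _).trans (term_deg s i (by omega) p q r t)

theorem tr_coeff (s : ℕ) (f : ℤ[X]) (p q r t : ℤ) :
    (tr s f p q r t).coeff s = ∑ i ∈ Finset.range (s + 1), f.coeff i * (t ^ i * (-r) ^ (s - i)) := by
  unfold tr
  rw [finset_sum_coeff]
  refine Finset.sum_congr rfl fun i hi => ?_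
  rw [Finset.mem_range] at hi
  rw [coeff_C_mul, term_coeff s i (by omega)]

theorem hom_eq {s : ℕ} (hs : 1 ≤ s) {K : Type} [Field K] [NumberField K] {f : ℤ[X]} {x : K}
    (hfin : Module.finrank ℚ K = s) (h : IsMin s f x) (r t : ℤ) :
    |((∑ i ∈ Finset.range (s + 1), f.coeff i * (t ^ i * (-r) ^ (s - i)) : ℤ) : ℝ)| = lc f * ∏ σ : K →+* ℂ, ‖(r : ℂ) * σ x + t‖ := by
  have hcard : Fintype.card (K →+* ℂ) = s := by rw [NumberField.Embeddings.card, hfin]
  have hlc : f.coeff s = f.leadingCoeff := by rw [leadingCoeff, h.2.1]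
  have hlcn : ‖(f.leadingCoeff : ℂ)‖ = lc f := by
    unfold lc
    rw [Complex.norm_intCast]
  rw [← Complex.norm_intCast]
  by_cases hr : r = 0
  · subst hr
    have e1 : ∑ i ∈ Finset.range (s + 1), f.coeff i * (t ^ i * (-0 : ℤ) ^ (s - i)) = f.leadingCoeff * t ^ s := by
      rw [Finset.sum_eq_single s]
      · rw [hlc]
        simp
      · intro i hi his
        rw [Finset.mem_range] at hi
        rw [neg_zero, zero_pow (by omega), mul_zero, mul_zero]
      · intro hs'
        exact absurd (Finset.mem_range.2 (Nat.lt_succ_self s)) hs'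
    rw [e1]
    push_cast
    rw [norm_mul, hlcn]
    congr 1
    simp only [zero_mul, zero_add, Finset.prod_const, Finset.card_univ, hcard, norm_pow]
  · obtain ⟨hprod, -⟩ := Pool.Agent.Q239.V.min K s x f hs hfin h
    have hrC : (r : ℂ) ≠ 0 := by exact_mod_cast hr
    have e1 : ((∑ i ∈ Finset.range (s + 1), f.coeff i * (t ^ i * (-r) ^ (s - i)) : ℤ) : ℂ) =
        (-(r : ℂ)) ^ s * (f.map (Int.castRingHom ℂ)).eval (-(t : ℂ) / r) := by
      have hdeg : (f.map (Int.castRingHom ℂ)).natDegree < s + 1 := by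
        have := natDegree_map_le (f := Int.castRingHom ℂ) (p := f)
        rw [h.2.1] at this
        omega
      rw [eval_eq_sum_range' hdeg, Finset.mul_sum]
      push_cast
      refine Finset.sum_congr rfl fun i hi => ?_
      rw [Finset.mem_range] at hi
      have e4 : (-(r : ℂ)) ^ s = (-(r : ℂ)) ^ i * (-(r : ℂ)) ^ (s - i) := by
        rw [← pow_add]
        congr 1
        omega
      have e5 : (-(r : ℂ)) ^ i * (-(t : ℂ) / r) ^ i = (t : ℂ) ^ i := by
        rw [← mul_pow]
        congr 1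
        field_simp
      rw [coeff_map, eq_intCast, e4, ← e5]
      ring
    rw [e1, hprod, eval_C_mul, norm_mul, norm_mul, hlcn, eval_prod, norm_prod]
    have e2 : ‖(-(r : ℂ)) ^ s‖ = ∏ _σ : K →+* ℂ, ‖(r : ℂ)‖ := by
      rw [Finset.prod_const, Finset.card_univ, hcard, norm_pow, norm_neg]
    have e3 : ‖(-(r : ℂ)) ^ s‖ * ∏ σ : K →+* ℂ, ‖eval (-(t : ℂ) / r) (X - C (σ x))‖ = ∏ σ : K →+* ℂ, ‖(r : ℂ) * σ x + t‖ := by
      rw [e2, ← Finset.prod_mul_distrib]
      refine Finset.prod_congr rfl fun σ _ => ?_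
      rw [← norm_mul, eval_sub, eval_X, eval_C, ← norm_neg]
      congr 1
      field_simp
      ring
    rw [← e3]
    ring

theorem exists_min {s : ℕ} (hs : 1 ≤ s) {K : Type} [Field K] [NumberField K] {y : K} (hfin : Module.finrank ℚ K = s)
    (htop : IntermediateField.adjoin ℚ {y} = ⊤) : ∃ g : ℤ[X], IsMin s g y := by
  have hi : IsIntegral ℚ y := IsIntegral.of_finite ℚ y
  have hdeg : (minpoly ℚ y).natDegree = s := by
    rw [← hfin]
    exact (Field.primitive_element_iff_minpoly_natDegree_eq ℚ y).1 htop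
  obtain ⟨N, hN⟩ : ∃ N : ℤ[X], N = IsLocalization.integerNormalization (nonZeroDivisors ℤ) (minpoly ℚ y) := ⟨_, rfl⟩
  obtain ⟨b, hb1, hb2⟩ := IsLocalization.integerNormalization_spec (nonZeroDivisors ℤ) (minpoly ℚ y)
  rw [← hN] at hb2
  have hb0 : (b : ℚ) ≠ 0 := by
    have := nonZeroDivisors.ne_zero hb1
    exact_mod_cast this
  have hmin0 : minpoly ℚ y ≠ 0 := minpoly.ne_zero hi
  have hb3 : N.map (algebraMap ℤ ℚ) = C (b : ℚ) * minpoly ℚ y := by
    rw [hb2, ← smul_eq_C_mul]
    exact (Int.cast_smul_eq_zsmul ℚ b _).symm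
  have hN0 : N ≠ 0 := by
    intro h0
    rw [h0, Polynomial.map_zero] at hb3
    exact mul_ne_zero (C_ne_zero.2 hb0) hmin0 hb3.symm
  have hcont := N.eq_C_content_mul_primPart
  have hc0 : (N.content : ℚ) ≠ 0 := by
    have : N.content ≠ 0 := by rwa [Ne, content_eq_zero_iff]
    exact_mod_cast this
  have h1 : C (N.content : ℚ) * N.primPart.map (algebraMap ℤ ℚ) = C (b : ℚ) * minpoly ℚ y := by
    rw [← hb3]
    conv_rhs => rw [hcont]
    rw [Polynomial.map_mul, map_C]
    rfl
  have h2 : Associated (N.primPart.map (Int.castRingHom ℚ)) (minpoly ℚ y) := by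
    have u1 : IsUnit (C (N.content : ℚ)) := isUnit_C.2 hc0.isUnit
    have u2 : IsUnit (C (b : ℚ)) := isUnit_C.2 hb0.isUnit
    have h3 : Associated (N.primPart.map (Int.castRingHom ℚ)) (C (N.content : ℚ) * N.primPart.map (Int.castRingHom ℚ)) :=
      associated_unit_mul_right _ _ u1
    have h4 : Associated (C (b : ℚ) * minpoly ℚ y) (minpoly ℚ y) := associated_unit_mul_left _ _ u2
    have h1' : C (N.content : ℚ) * N.primPart.map (Int.castRingHom ℚ) = C (b : ℚ) * minpoly ℚ y := h1
    rw [h1'] at h3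
    exact h3.trans h4
  have hprim : N.primPart.IsPrimitive := N.isPrimitive_primPart
  refine ⟨N.primPart, (IsPrimitive.Int.irreducible_iff_irreducible_map_cast hprim).2 (h2.irreducible_iff.2 (minpoly.irreducible hi)), ?_, ?_⟩
  · have := natDegree_eq_of_degree_eq (degree_eq_degree_of_associated h2)
    rw [natDegree_map_eq_of_injective Int.cast_injective, hdeg] at this
    exact this
  · have h5 : aeval y (N.primPart.map (algebraMap ℤ ℚ)) = 0 := by
      obtain ⟨c, hc⟩ := h2.symm.dvd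
      have h6 : N.primPart.map (algebraMap ℤ ℚ) = minpoly ℚ y * c := hc
      rw [h6, map_mul, minpoly.aeval, zero_mul]
    rwa [aeval_map_algebraMap] at h5

theorem dvd_of_root {s : ℕ} (hs : 1 ≤ s) {K : Type} [Field K] [NumberField K] {g : ℤ[X]} {y : K} (h : IsMin s g y) {T : ℤ[X]}
    (hT : aeval y T = 0) : g ∣ T := by
  have h1 : minpoly ℚ y ∣ T.map (Int.castRingHom ℚ) := by
    apply minpoly.dvd
    have : Int.castRingHom ℚ = algebraMap ℤ ℚ := rfl
    rw [this, aeval_map_algebraMap]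
    exact hT
  by_cases hT0 : T = 0
  · rw [hT0]
    exact dvd_zero _
  have hl0 : (g.leadingCoeff : ℚ) ≠ 0 := by exact_mod_cast leadingCoeff_ne_zero.2 h.1.ne_zero
  rw [minpoly_eq hs h] at h1
  have h2 : g.map (Int.castRingHom ℚ) ∣ T.map (Int.castRingHom ℚ) := (dvd_mul_left _ _).trans h1
  exact (IsPrimitive.Int.dvd_iff_map_cast_dvd_map_cast _ _ (prim hs h)).2 h2

theorem den_ne {s : ℕ} (hs : 2 ≤ s) {K : Type} [Field K] [NumberField K] {f : ℤ[X]} {x : K}
    (h : IsMin s f x) (p q r t : ℤ) (hd : p * t - q * r = 1) : (r : K) * x + t ≠ 0 := by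
  intro h0
  have h1 : aeval x (C r * X + C t : ℤ[X]) = 0 := by
    rw [map_add, map_mul, aeval_X, aeval_C, aeval_C]
    simp only [algebraMap_int_eq, eq_intCast]
    exact h0
  have h2 := dvd_of_root (by omega) h h1
  have h3 : (C r * X + C t : ℤ[X]) ≠ 0 := by
    intro h4
    have h5 : (C r * X + C t : ℤ[X]).coeff 1 = r := by
      rw [coeff_add, coeff_C_mul, coeff_X_one, coeff_C_ne_zero one_ne_zero, mul_one, add_zero]
    have h6 : (C r * X + C t : ℤ[X]).coeff 0 = t := by
      rw [coeff_add, coeff_C_mul, coeff_X_zero, coeff_C_zero, mul_zero, zero_add]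
    rw [h4, coeff_zero] at h5 h6
    rw [← h5, ← h6, mul_zero, mul_zero] at hd
    omega
  have h4 := natDegree_le_of_dvd h2 h3
  rw [h.2.1] at h4
  have h5 : (C r * X + C t : ℤ[X]).natDegree ≤ 1 := natDegree_linear_le
  omega

theorem ineq {s : ℕ} (hs : 2 ≤ s) {K : Type} [Field K] [NumberField K] {f g : ℤ[X]} {x : K} (hfin : Module.finrank ℚ K = s)
    (h : IsMin s f x) (p q r t : ℤ) (hd : p * t - q * r = 1) (hg : IsMin s g (((p : K) * x + q) / (r * x + t))) :
    lc g ≤ lc f * ∏ σ : K →+* ℂ, ‖(r : ℂ) * σ x + t‖ := by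
  have hx := den_ne hs h p q r t hd
  have h1 := tr_eval s f h.2.1 p q r t x hd hx
  rw [h.2.2] at h1
  have h2 : aeval (((p : K) * x + q) / (r * x + t)) (tr s f p q r t) = 0 :=
    (mul_eq_zero.1 h1).resolve_right (pow_ne_zero _ hx)
  obtain ⟨c, hc⟩ := dvd_of_root (by omega) hg h2
  have h3 := hom_eq (by omega) hfin h r t
  rw [← tr_coeff s f p q r t] at h3
  have hpos : 0 < lc f * ∏ σ : K →+* ℂ, ‖(r : ℂ) * σ x + t‖ := by
    refine mul_pos (lt_of_lt_of_le one_pos (lc_ge h)) (Finset.prod_pos fun σ _ => norm_pos_iff.2 ?_)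
    have e : (r : ℂ) * σ x + t = σ ((r : K) * x + t) := by
      rw [map_add, map_mul, map_intCast, map_intCast]
    rw [e, Ne, map_eq_zero]
    exact hx
  have h4 : (tr s f p q r t).coeff s ≠ 0 := by
    intro h5
    rw [h5, Int.cast_zero, abs_zero] at h3
    linarith
  have h5 : (tr s f p q r t).natDegree = s := le_antisymm (tr_deg s f p q r t) (le_natDegree_of_ne_zero h4)
  have h6 : (tr s f p q r t).coeff s = (tr s f p q r t).leadingCoeff := by rw [leadingCoeff, h5]
  rw [← h3, h6, hc, leadingCoeff_mul]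
  push_cast
  rw [abs_mul]
  have hc0 : c ≠ 0 := by
    intro h7
    rw [h7, mul_zero] at hc
    rw [hc] at h4
    simp at h4
  have h7 : (1 : ℝ) ≤ |(c.leadingCoeff : ℝ)| := by
    have : (1 : ℤ) ≤ |c.leadingCoeff| := Int.one_le_abs (leadingCoeff_ne_zero.2 hc0)
    exact_mod_cast this
  show |(g.leadingCoeff : ℝ)| ≤ _
  nlinarith [abs_nonneg (g.leadingCoeff : ℝ)]

/-- **MOB** -/
theorem mob : S_MOB := by
  intro K _ _ s x f p q r t hs hfin h hd
  have hx := den_ne hs h p q r t hd
  refine ⟨hx, ?_⟩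
  obtain ⟨y, hy⟩ : ∃ y : K, y = ((p : K) * x + q) / (r * x + t) := ⟨_, rfl⟩
  have hd' : (p : K) * t - q * r = 1 := by exact_mod_cast congrArg (Int.cast : ℤ → K) hd
  have hyy : y * (r * x + t) = p * x + q := by rw [hy]; exact div_mul_cancel₀ _ hx
  have e1 : (t : K) * y + ((-q : ℤ) : K) = x / (r * x + t) := by
    rw [eq_div_iff hx]
    push_cast
    linear_combination (t : K) * hyy + x * hd'
  have e2 : ((-r : ℤ) : K) * y + p = 1 / (r * x + t) := by
    rw [eq_div_iff hx]
    push_cast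
    linear_combination (-(r : K)) * hyy + hd'
  have e3 : ((t : K) * y + ((-q : ℤ) : K)) / (((-r : ℤ) : K) * y + p) = x := by
    rw [e1, e2, div_div_div_cancel_right₀ hx, div_one]
  have htop : IntermediateField.adjoin ℚ {y} = ⊤ := by
    have h1 : x ∈ IntermediateField.adjoin ℚ {y} := by
      rw [← e3]
      have hyy := IntermediateField.mem_adjoin_simple_self ℚ y
      exact div_mem (add_mem (mul_mem (intCast_mem _ _) hyy) (intCast_mem _ _)) (add_mem (mul_mem (intCast_mem _ _) hyy) (intCast_mem _ _))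
    have h2 := adj_top (by omega) hfin h
    rw [eq_top_iff, ← h2, IntermediateField.adjoin_simple_le_iff]
    exact h1
  obtain ⟨g, hg⟩ := exists_min (by omega) hfin htop
  refine ⟨g, by rw [← hy]; exact hg, ?_⟩
  have i1 := ineq hs hfin h p q r t hd (by rw [← hy]; exact hg)
  have i2 := ineq hs hfin (x := y) hg t (-q) (-r) p (by linarith) (by rw [e3]; exact h)
  have e4 : ∏ σ : K →+* ℂ, ‖((-r : ℤ) : ℂ) * σ y + p‖ = (∏ σ : K →+* ℂ, ‖(r : ℂ) * σ x + t‖)⁻¹ := by
    rw [← Finset.prod_inv_distrib]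
    refine Finset.prod_congr rfl fun σ _ => ?_
    rw [← norm_inv]
    congr 1
    have e5 := congrArg σ e2
    rw [map_add, map_mul, map_div₀, map_one, map_add, map_mul, map_intCast, map_intCast, map_intCast, map_intCast] at e5
    rw [e5, one_div]
  rw [e4] at i2
  have hpos : 0 < ∏ σ : K →+* ℂ, ‖(r : ℂ) * σ x + t‖ := by
    refine Finset.prod_pos fun σ _ => norm_pos_iff.2 ?_
    have e : (r : ℂ) * σ x + t = σ ((r : K) * x + t) := by
      rw [map_add, map_mul, map_intCast, map_intCast]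
    rw [e, Ne, map_eq_zero]
    exact hx
  refine le_antisymm i1 ?_
  rw [← div_eq_mul_inv, le_div_iff₀ hpos] at i2
  exact i2

end

end Pool.Agent.Q177.V
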